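import Mathlib
import Pool.Agent.Y294.FO.StmC2

/-!
# Regions with boundary of class `C²` satisfy the two-sided ball condition

Part C2 of project FO (statement `Pool.Agent.Y294.FO.S_C2`).
-/

open Set Metric Filter Topology
open scoped RealInnerProductSpace Gradient

namespace Pool.Agent.Y865.FO

variable {E : Type*} [NormedAddCommGroup E] [InnerProductSpace ℝ E]

/-- The derivative of a `C¹` map is bounded on every ball. -/
theorem bound {G : Type*} [NormedAddCommGroup G] [NormedSpace ℝ G] [FiniteDimensional ℝ E]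
    (g : E → G) (hg : ContDiff ℝ 1 g) (R : ℝ) :
    ∃ C : ℝ, ∀ x ∈ closedBall (0 : E) R, ‖fderiv ℝ g x‖ ≤ C := by
  have : ProperSpace E := FiniteDimensional.proper_real E
  have hc : Continuous (fderiv ℝ g) := hg.continuous_fderiv (by norm_num)
  exact (isCompact_closedBall (0 : E) R).exists_bound_of_continuousOn hc.continuousOn

/-- Second order Taylor estimate on a ball, with a constant. -/
theorem taylor [FiniteDimensional ℝ E] [CompleteSpace E] (f : E → ℝ) (hf : ContDiff ℝ 2 f)
    (R : ℝ) : ∃ M : ℝ, 1 ≤ M ∧ ∀ q ∈ closedBall (0 : E) R, ∀ z ∈ closedBall (0 : E) R,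
      |f z - f q - ⟪∇ f q, z - q⟫| ≤ M * ‖z - q‖ ^ 2 := by
  have hf1 : ContDiff ℝ 1 (fderiv ℝ f) := hf.fderiv_right (m := 1) (by norm_num)
  obtain ⟨C, hC⟩ := bound (fderiv ℝ f) hf1 R
  refine ⟨max C 1, le_max_right _ _, fun q hq z hz => ?_⟩
  have hcv : Convex ℝ (closedBall (0 : E) R) := convex_closedBall _ _
  have hM0 : 0 ≤ max C 1 := le_trans zero_le_one (le_max_right _ _)
  have hlip : ∀ w ∈ closedBall (0 : E) R, ‖fderiv ℝ f w - fderiv ℝ f q‖ ≤
      max C 1 * ‖w - q‖ := by
    intro w hw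
    exact hcv.norm_image_sub_le_of_norm_fderiv_le
      (fun x _ => (hf1.differentiable (by norm_num)) x)
      (fun x hx => le_trans (hC x hx) (le_max_left _ _)) hq hw
  have hseg : segment ℝ q z ⊆ closedBall (0 : E) R := hcv.segment_subset hq hz
  have key := (convex_segment q z).norm_image_sub_le_of_norm_fderiv_le' (f := f)
    (φ := fderiv ℝ f q) (C := max C 1 * ‖z - q‖)
    (fun x _ => (hf.differentiable (by norm_num)) x)
    (fun x hx => by
      refine le_trans (hlip x (hseg hx)) (mul_le_mul_of_nonneg_left ?_ hM0)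
      obtain ⟨t, ht, rfl⟩ := (segment_eq_image_lineMap ℝ q z ▸ hx : x ∈ _)
      rw [AffineMap.lineMap_apply_module']
      have h1 : t • (z - q) + q - q = t • (z - q) := by abel
      rw [h1, norm_smul, Real.norm_of_nonneg ht.1]
      exact mul_le_of_le_one_left (norm_nonneg _) ht.2)
    (left_mem_segment ℝ q z) (right_mem_segment ℝ q z)
  have hg : ⟪∇ f q, z - q⟫ = fderiv ℝ f q (z - q) := by
    rw [gradient, InnerProductSpace.toDual_symm_apply]
  rw [hg, pow_two, ← mul_assoc]
  exact key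

theorem main (E : Type*) [NormedAddCommGroup E] [InnerProductSpace ℝ E] [FiniteDimensional ℝ E]
    [CompleteSpace E] : Pool.Agent.Y294.FO.S_C2 E := by
  intro f hf hbd hconn hreg
  have hcont : Continuous f := hf.continuous
  have hfr : ∀ q ∈ frontier {z : E | f z < 0}, f q = 0 := fun q hq =>
    frontier_lt_subset_eq hcont continuous_const hq
  -- the gradient has a positive minimum on the boundary
  have hcpt : IsCompact (frontier {z : E | f z < 0}) :=
    Metric.isCompact_of_isClosed_isBounded isClosed_frontier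
      (hbd.closure.subset frontier_subset_closure)
  have hgn : ∀ q, ‖∇ f q‖ = ‖fderiv ℝ f q‖ := fun q => by
    rw [gradient, LinearIsometryEquiv.norm_map]
  have hcg : Continuous fun q => ‖∇ f q‖ := by
    simp only [hgn]
    exact (hf.continuous_fderiv (by norm_num)).norm
  obtain ⟨m, hm0, hm⟩ := hcpt.exists_forall_le' hcg.continuousOn (a := 0)
    (fun q hq => norm_pos_iff.2 (hreg q (hfr q hq)))
  obtain ⟨R, hR⟩ := hbd.subset_closedBall (0 : E)
  obtain ⟨M, hM1, hM⟩ := taylor f hf (R + 3)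
  have hM0 : 0 < M := lt_of_lt_of_le zero_lt_one hM1
  set r : ℝ := min 1 (m / (2 * M)) with hr
  have hr0 : 0 < r := lt_min one_pos (by positivity)
  have hr1 : r ≤ 1 := min_le_left _ _
  have hrm : 2 * M * r ≤ m := by
    have h1 : r ≤ m / (2 * M) := min_le_right _ _
    rw [le_div_iff₀ (by positivity)] at h1
    linarith
  have hfrR : ∀ q ∈ frontier {z : E | f z < 0}, ‖q‖ ≤ R := fun q hq => by
    have h1 : q ∈ closedBall (0 : E) R :=
      closure_minimal hR isClosed_closedBall (frontier_subset_closure hq)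
    simpa using h1
  -- the data at a boundary point
  have hkey : ∀ q ∈ frontier {z : E | f z < 0}, ∀ z : E, ‖z - q‖ ≤ 2 →
      |f z - ‖∇ f q‖ * ⟪‖∇ f q‖⁻¹ • ∇ f q, z - q⟫| ≤ M * ‖z - q‖ ^ 2 := by
    intro q hq z hz
    have hqR := hfrR q hq
    have h1 := hM q (by simp; linarith) z (by
      have h2 : ‖z‖ ≤ ‖z - q‖ + ‖q‖ := by
        have := norm_add_le (z - q) q
        simpa using this
      simp
      linarith)
    rw [hfr q hq, sub_zero] at h1
    have h3 : ‖∇ f q‖ ≠ 0 := norm_ne_zero_iff.2 (hreg q (hfr q hq))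
    rwa [inner_smul_left, RCLike.conj_to_real, ← mul_assoc, mul_inv_cancel₀ h3, one_mul]
  have hunit : ∀ q ∈ frontier {z : E | f z < 0}, ‖‖∇ f q‖⁻¹ • ∇ f q‖ = 1 := fun q hq => by
    have h3 : ‖∇ f q‖ ≠ 0 := norm_ne_zero_iff.2 (hreg q (hfr q hq))
    rw [norm_smul, norm_inv, norm_norm, inv_mul_cancel₀ h3]
  refine ⟨r, ⟨isOpen_lt hcont continuous_const, hconn, hbd, hr0, hunit, ?_, ?_⟩⟩
  · intro q hq z hz
    set ν : E := ‖∇ f q‖⁻¹ • ∇ f q with hν
    have hu : ‖ν‖ = 1 := hunit q hq
    have hz' : ‖(z - q) + r • ν‖ < r := by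
      have h1 : (z - q) + r • ν = z - (q - r • ν) := by abel
      rw [h1]
      simpa [dist_eq_norm] using hz
    have hz2 : ‖z - q‖ ≤ 2 := by
      have h1 : ‖z - q‖ ≤ ‖(z - q) + r • ν‖ + ‖r • ν‖ := by
        have := norm_sub_le ((z - q) + r • ν) (r • ν)
        simpa using this
      rw [norm_smul, hu, Real.norm_of_nonneg hr0.le] at h1
      linarith
    have hsq : ‖z - q‖ ^ 2 + 2 * r * ⟪ν, z - q⟫ < 0 := by
      have h1 : ‖(z - q) + r • ν‖ ^ 2 < r ^ 2 := by
        have h0 := norm_nonneg ((z - q) + r • ν)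
        nlinarith
      rw [norm_add_sq_real, norm_smul, hu, Real.norm_of_nonneg hr0.le, inner_smul_right,
        real_inner_comm] at h1
      nlinarith
    have hk := abs_le.1 (hkey q hq z hz2)
    have hmq := hm q hq
    have hs : ⟪ν, z - q⟫ < 0 := by
      by_contra hcon
      push Not at hcon
      have := mul_nonneg (mul_nonneg (by norm_num : (0 : ℝ) ≤ 2) hr0.le) hcon
      nlinarith [sq_nonneg ‖z - q‖]
    have h1 : M * ‖z - q‖ ^ 2 < -(2 * M * r) * ⟪ν, z - q⟫ := by nlinarith
    have h2 : (‖∇ f q‖ - 2 * M * r) * ⟪ν, z - q⟫ ≤ 0 :=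
      mul_nonpos_of_nonneg_of_nonpos (by linarith) hs.le
    show f z < 0
    nlinarith [hk.2]
  · intro q hq
    rw [Set.disjoint_left]
    intro z hz hz0
    set ν : E := ‖∇ f q‖⁻¹ • ∇ f q with hν
    have hu : ‖ν‖ = 1 := hunit q hq
    have hz' : ‖(z - q) - r • ν‖ < r := by
      have h1 : (z - q) - r • ν = z - (q + r • ν) := by abel
      rw [h1]
      simpa [dist_eq_norm] using hz
    have hz2 : ‖z - q‖ ≤ 2 := by
      have h1 : ‖z - q‖ ≤ ‖(z - q) - r • ν‖ + ‖r • ν‖ := by
        have := norm_add_le ((z - q) - r • ν) (r • ν)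
        simpa using this
      rw [norm_smul, hu, Real.norm_of_nonneg hr0.le] at h1
      linarith
    have hsq : ‖z - q‖ ^ 2 - 2 * r * ⟪ν, z - q⟫ < 0 := by
      have h1 : ‖(z - q) - r • ν‖ ^ 2 < r ^ 2 := by
        have h0 := norm_nonneg ((z - q) - r • ν)
        nlinarith
      rw [norm_sub_sq_real, norm_smul, hu, Real.norm_of_nonneg hr0.le, inner_smul_right,
        real_inner_comm] at h1
      nlinarith
    have hk := abs_le.1 (hkey q hq z hz2)
    have hmq := hm q hq
    have hs : 0 < ⟪ν, z - q⟫ := by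
      by_contra hcon
      push Not at hcon
      have := mul_nonpos_of_nonneg_of_nonpos (mul_nonneg (by norm_num : (0 : ℝ) ≤ 2) hr0.le) hcon
      nlinarith [sq_nonneg ‖z - q‖]
    have h1 : M * ‖z - q‖ ^ 2 < (2 * M * r) * ⟪ν, z - q⟫ := by nlinarith
    have h2 : 0 ≤ (‖∇ f q‖ - 2 * M * r) * ⟪ν, z - q⟫ :=
      mul_nonneg (by linarith) hs.le
    have hz00 : f z < 0 := hz0
    nlinarith [hk.1]

end Pool.Agent.Y865.FO
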